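import Pool.Agent.R623.AF.Stm

/-!
# AF-LOC: local integrality
-/

set_option autoImplicit false

namespace Pool.Agent.R371.AFLoc

open NumberField IsDedekindDomain

variable {K : Type} [Field K] [NumberField K]

/-- ramification bound -/
theorem ram (v : HeightOneSpectrum (𝓞 K)) {p : ℕ} (hp : p.Prime) (m : ℕ)
    (h : v.asIdeal ^ m ∣ Ideal.span {(p : 𝓞 K)}) : m ≤ Module.finrank ℚ K := by
  have h1 := Ideal.absNorm_dvd_absNorm_of_le (Ideal.le_of_dvd h)
  have h2 : Ideal.absNorm (Ideal.span {(p : 𝓞 K)}) = p ^ Module.finrank ℚ K := by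
    rw [Ideal.absNorm_span_singleton]
    have : ((p : ℕ) : 𝓞 K) = algebraMap ℤ (𝓞 K) (p : ℤ) := by simp
    rw [this, Algebra.norm_algebraMap, RingOfIntegers.rank, Int.natAbs_pow, Int.natAbs_natCast]
  rw [h2, map_pow] at h1
  rcases Nat.eq_zero_or_pos m with h0 | h0
  · omega
  have h3 : Ideal.absNorm v.asIdeal ∣ p ^ Module.finrank ℚ K :=
    (dvd_pow_self _ h0.ne').trans h1
  obtain ⟨f, hf, hf2⟩ := (Nat.dvd_prime_pow hp).1 h3
  have hf0 : f ≠ 0 := by
    rintro rfl
    rw [pow_zero, Ideal.absNorm_eq_one_iff] at hf2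
    exact v.isPrime.ne_top hf2
  rw [hf2, ← pow_mul] at h1
  have h4 := (Nat.pow_dvd_pow_iff_le_right hp.one_lt).1 h1
  have : 1 * m ≤ f * m := Nat.mul_le_mul_right _ (Nat.one_le_iff_ne_zero.2 hf0)
  omega

theorem nat_le (v : HeightOneSpectrum (𝓞 K)) (m : ℕ) : v.valuation K (m : K) ≤ 1 := by
  have h' : v.valuation K (algebraMap (𝓞 K) K (m : 𝓞 K)) ≤ 1 := v.valuation_le_one (m : 𝓞 K)
  rwa [map_natCast] at h'

theorem vp_exists (v : HeightOneSpectrum (𝓞 K)) {p : ℕ} (hp : p.Prime) :
    ∃ l : ℤ, v.valuation K (p : K) = WithZero.exp l ∧ -(Module.finrank ℚ K : ℤ) ≤ l := by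
  have hp0 : (p : K) ≠ 0 := by exact_mod_cast hp.ne_zero
  have hvp : v.valuation K (p : K) ≠ 0 := (Valuation.ne_zero_iff _).2 hp0
  refine ⟨WithZero.log (v.valuation K (p : K)), (WithZero.exp_log hvp).symm, ?_⟩
  by_contra hcon
  rw [not_le] at hcon
  have h9 : v.asIdeal ^ (Module.finrank ℚ K + 1) ∣ Ideal.span {(p : 𝓞 K)} := by
    rw [← v.intValuation_le_pow_iff_dvd, ← v.valuation_of_algebraMap (K := K)]
    change v.valuation K (algebraMap (𝓞 K) K (p : 𝓞 K)) ≤ _
    rw [map_natCast, ← WithZero.exp_log hvp, WithZero.exp_le_exp]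
    push_cast
    omega
  have := ram v hp _ h9
  omega

theorem key (v : HeightOneSpectrum (𝓞 K)) {p : ℕ} (hp : p.Prime)
    (hd : Module.finrank ℚ K + 2 < p) {x y : K} (h : x ^ p + y ^ p = 1)
    (hs : v.valuation K (x + y) ≤ 1) (hx : 1 < v.valuation K x) :
    ∃ k l e : ℤ, v.valuation K x = WithZero.exp k ∧ v.valuation K y = WithZero.exp k ∧
      v.valuation K (x + y) = WithZero.exp e ∧ 1 ≤ k ∧ -(Module.finrank ℚ K : ℤ) ≤ l ∧
      e + ((p - 1 : ℕ) : ℤ) * k + l = 0 := by
  have hodd : Odd p := hp.odd_of_ne_two (by omega)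
  obtain ⟨l, hl, hl2⟩ := vp_exists v hp
  have hvx0 : v.valuation K x ≠ 0 := ne_of_gt (lt_trans zero_lt_one hx)
  set k := WithZero.log (v.valuation K x) with hk
  have hxk : v.valuation K x = WithZero.exp k := (WithZero.exp_log hvx0).symm
  have hk1 : 1 ≤ k := by
    rw [hxk, ← WithZero.exp_zero, WithZero.exp_lt_exp] at hx
    omega
  have hyk : v.valuation K y = WithZero.exp k := by
    have h1 : y = (x + y) - x := by ring
    rw [h1, Valuation.map_sub_eq_of_lt_right _ (lt_of_le_of_lt hs hx), hxk]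
  set s := x + y with hsdef
  -- the expansion
  set T : ℕ → K := fun i => s ^ i * (-x) ^ (p - (i + 1)) * (p.choose (i + 1) : K) with hT
  have hsQ : s * ∑ i ∈ Finset.range p, T i = 1 := by
    have h1 : y = s + -x := by rw [hsdef]; ring
    have h2 := add_pow s (-x) p
    rw [← h1, Finset.sum_range_succ'] at h2
    have h3 : s ^ 0 * (-x) ^ (p - 0) * (p.choose 0 : K) = -x ^ p := by
      rw [pow_zero, Nat.sub_zero, Nat.choose_zero_right, hodd.neg_pow]
      simp
    rw [h3] at h2
    have h4 : ∑ i ∈ Finset.range p, s ^ (i + 1) * (-x) ^ (p - (i + 1)) * (p.choose (i + 1) : K) =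
        s * ∑ i ∈ Finset.range p, T i := by
      rw [Finset.mul_sum]
      refine Finset.sum_congr rfl fun i _ => ?_
      rw [hT]
      ring
    rw [h4] at h2
    linear_combination h - h2
  have hvT0 : v.valuation K (T 0) = WithZero.exp (((p - 1 : ℕ) : ℤ) * k + l) := by
    have h1 : T 0 = (-x) ^ (p - 1) * (p : K) := by
      rw [hT]
      simp
    rw [h1, map_mul, map_pow, Valuation.map_neg, hxk, hl, WithZero.exp_add, ← nsmul_eq_mul,
      WithZero.exp_nsmul]
  have hT0pos : (0 : ℤ) < ((p - 1 : ℕ) : ℤ) * k + l := by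
    have h1 : (Module.finrank ℚ K : ℤ) + 2 ≤ ((p - 1 : ℕ) : ℤ) := by omega
    nlinarith
  have hTi : ∀ i ∈ (Finset.range p).erase 0, v.valuation K (T i) < v.valuation K (T 0) := by
    intro i hi
    rw [Finset.mem_erase, Finset.mem_range] at hi
    obtain ⟨hi0, hip⟩ := hi
    have hvs : v.valuation K s ^ i ≤ 1 := pow_le_one₀ zero_le hs
    rw [hT]
    simp only []
    rw [map_mul, map_mul, map_pow, map_pow, Valuation.map_neg]
    rcases Nat.lt_or_ge (i + 1) p with h1 | h1
    · have h2 : v.valuation K (p.choose (i + 1) : K) ≤ v.valuation K (p : K) := by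
        obtain ⟨c, hc⟩ := hp.dvd_choose_self (Nat.succ_ne_zero i) h1
        rw [Nat.succ_eq_add_one] at hc
        rw [hc, Nat.cast_mul, map_mul]
        exact mul_le_of_le_one_right' (nat_le v c)
      calc v.valuation K s ^ i * v.valuation K x ^ (p - (i + 1)) *
            v.valuation K (p.choose (i + 1) : K)
          ≤ 1 * v.valuation K x ^ (p - (i + 1)) * v.valuation K (p : K) := by
            exact mul_le_mul' (mul_le_mul' hvs le_rfl) h2
        _ < v.valuation K (T 0) := by
            rw [one_mul, hvT0, hxk, hl, ← WithZero.exp_nsmul, ← WithZero.exp_add,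
              WithZero.exp_lt_exp, nsmul_eq_mul]
            have h3 : ((p - (i + 1) : ℕ) : ℤ) + 1 ≤ ((p - 1 : ℕ) : ℤ) := by omega
            nlinarith
    · have h2 : i + 1 = p := by omega
      have h3 : p - (i + 1) = 0 := by omega
      rw [h3, pow_zero, mul_one]
      calc v.valuation K s ^ i * v.valuation K (p.choose (i + 1) : K) ≤ 1 * 1 :=
            mul_le_mul' hvs (nat_le v _)
        _ < v.valuation K (T 0) := by
            rw [mul_one, hvT0, ← WithZero.exp_zero, WithZero.exp_lt_exp]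
            exact hT0pos
  have hQ : v.valuation K (∑ i ∈ Finset.range p, T i) = v.valuation K (T 0) := by
    have h0 : 0 ∈ Finset.range p := Finset.mem_range.2 hp.pos
    rw [← Finset.add_sum_erase _ _ h0]
    refine Valuation.map_add_eq_of_lt_left _ ?_
    refine Valuation.map_sum_lt _ ?_ hTi
    rw [hvT0]
    exact WithZero.exp_ne_zero
  have hprod : v.valuation K s * v.valuation K (T 0) = 1 := by
    rw [← hQ, ← map_mul, hsQ, map_one]
  have hs0 : v.valuation K s ≠ 0 := by
    intro h0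
    rw [h0, zero_mul] at hprod
    exact zero_ne_one hprod
  refine ⟨k, l, WithZero.log (v.valuation K s), hxk, hyk, (WithZero.exp_log hs0).symm, hk1, hl2, ?_⟩
  rw [← WithZero.exp_log hs0, hvT0, ← WithZero.exp_add, ← WithZero.exp_zero,
    WithZero.exp_inj] at hprod
  linarith

end Pool.Agent.R371.AFLoc

namespace Pool.Agent.R623.AF

open NumberField IsDedekindDomain

theorem LOC : S_LOC := by
  intro K _ _ v p x y hp hd h hx hy hs
  rcases le_or_gt (v.valuation K x) 1 with hx1 | hx1
  · have hy1 : v.valuation K y ≤ 1 := by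
      have h1 : y = (x + y) - x := by ring
      rw [h1]
      exact (Valuation.map_sub _ _ _).trans (max_le hs hx1)
    refine ⟨fun i j _ => ?_, fun h1 => absurd h1 (not_lt.2 hx1)⟩
    rw [map_mul, map_mul, map_pow, map_pow]
    exact mul_le_one' (mul_le_one' hs (pow_le_one₀ zero_le hx1)) (pow_le_one₀ zero_le hy1)
  · obtain ⟨k, l, e, hxk, hyk, hse, hk, hl, he⟩ :=
      Pool.Agent.R371.AFLoc.key v hp hd h hs hx1
    constructor
    · intro i j hij
      rw [map_mul, map_mul, map_pow, map_pow, hxk, hyk, hse, ← WithZero.exp_nsmul,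
        ← WithZero.exp_nsmul, ← WithZero.exp_add, ← WithZero.exp_add, ← WithZero.exp_zero,
        WithZero.exp_le_exp, nsmul_eq_mul, nsmul_eq_mul]
      have h1 : (i : ℤ) + j + Module.finrank ℚ K ≤ ((p - 1 : ℕ) : ℤ) := by omega
      nlinarith
    · intro _ n hn
      rw [hse, WithZero.exp_le_exp]
      have h1 : (n : ℤ) + Module.finrank ℚ K ≤ ((p - 1 : ℕ) : ℤ) := by omega
      nlinarith

end Pool.Agent.R623.AF
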